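import Mathlib
import Pool.Agent.V1166.WI.Plane
import Pool.Agent.W307.RT.Main4
import Pool.Agent.W307.RT.Main6
import Pool.Agent.W307.RT.Tors
import Pool.Agent.Y723.Z8.Fin

/-!
# The ranks of all the curves with a subgroup `Z/2 x Z/4`, `Z/2 x Z/6` or `Z/2 x Z/8` near random
points of the plane of parameters

The elliptic curves over `ℚ` with a subgroup `Z/2 x Z/4`, `Z/2 x Z/6` or `Z/2 x Z/8` are the curves
`y² = x (x + M(a, b)) (x + N(a, b))`, `a`, `b` coprime, with `(M, N)` equal to `(a², b²)`,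
`(a³ (a + 2 b), b³ (b + 2 a))` or `((2 a b)⁴, (a² - b²)⁴)`. Let `v n ≥ 1` be any sequence, for example
`2 ^ n` or `2 ^ 2 ^ n`. For almost all the vectors `α` of the plane, all `C` with `n ^ C ≤ v n` for
large `n`, all `ε > 0` and all large `n`, ALL the curves whose parameters `(a, b)` lie in the square
with centre `v n * α` and side `2 n ^ C` satisfy `2 ^ rank ≤ n ^ (2 C + 1 + ε)`.
-/

set_option autoImplicit false

namespace Pool.Agent.Results.MP_9e6228_nt.WindowsOfParameters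

open MeasureTheory Filter Finset

/-- the curve `y² = x³ + A x + B` -/
def E (A B : ℤ) : WeierstrassCurve ℚ := ⟨0, 0, 0, (A : ℚ), (B : ℚ)⟩

/-- the curve `y² = x (x + m) (x + n)` -/
def curve (m n : ℤ) : WeierstrassCurve ℚ := ⟨0, (m : ℚ) + n, 0, (m : ℚ) * n, 0⟩

/-- the Mordell-Weil rank -/
noncomputable def rank (W : WeierstrassCurve ℚ) : ℕ := Module.finrank ℤ W.toAffine.Point

/-- the second factors of the torsion subgroups: `4`, `6` and `8` -/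
def tor (i : Fin 3) : ℕ := if i = 0 then 4 else if i = 1 then 6 else 8

/-- the first form: `a²`, `a³ (a + 2 b)` or `(2 a b)⁴` -/
def M (i : Fin 3) (t : ℤ × ℤ) : ℤ :=
  if i = 0 then t.1 ^ 2 else if i = 1 then t.1 ^ 3 * (t.1 + 2 * t.2) else (2 * t.1 * t.2) ^ 4

/-- the second form: `b²`, `b³ (b + 2 a)` or `(a² - b²)⁴` -/
def N (i : Fin 3) (t : ℤ × ℤ) : ℤ :=
  if i = 0 then t.2 ^ 2 else if i = 1 then t.2 ^ 3 * (t.2 + 2 * t.1) else (t.1 ^ 2 - t.2 ^ 2) ^ 4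

/-- the parameters of the curves: `a` and `b` are coprime and the curve is not singular -/
def Param (i : Fin 3) (t : ℤ × ℤ) : Prop :=
  IsCoprime t.1 t.2 ∧ M i t ≠ 0 ∧ N i t ≠ 0 ∧ M i t ≠ N i t

/-- both coordinates of the integer point `t` are at distance at most `n ^ C` from those of `v n * α` -/
def Near (v : ℕ → ℝ) (α : ℝ × ℝ) (C n : ℕ) (t : ℤ × ℤ) : Prop :=
  |(t.1 : ℝ) - α.1 * v n| ≤ (n : ℝ) ^ C ∧ |(t.2 : ℝ) - α.2 * v n| ≤ (n : ℝ) ^ C

lemma curve_eq (m n : ℤ) : Pool.Agent.W262.RK.EAB (-m) (-n) = curve m n := by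
  unfold Pool.Agent.W262.RK.EAB curve
  congr 1
  · push_cast
    ring
  · push_cast
    ring

lemma box (i : Fin 3) : ∃ C : ℝ, 0 ≤ C ∧ ∀ T : ℕ, 1 ≤ T → ∀ F : Finset (ℤ × ℤ),
    (∀ t ∈ F, |t.1| ≤ T ∧ |t.2| ≤ T ∧ Param i t) →
      ∑ t ∈ F, (2 : ℝ) ^ rank (curve (M i t) (N i t)) ≤ C * (T : ℝ) ^ 2 := by
  classical
  have hin : ∀ (T : ℕ) (t : ℤ × ℤ), |t.1| ≤ T → |t.2| ≤ T → t ∈ Pool.Agent.W307.RT.Box T := by
    intro T t h1 h2
    rw [Pool.Agent.W307.RT.mem_Box]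
    rw [abs_le] at h1 h2
    omega
  have hi : i = 0 ∨ i = 1 ∨ i = 2 := by
    revert i
    decide
  rcases hi with rfl | rfl | rfl
  · obtain ⟨C, hC, h⟩ := Pool.Agent.W307.RT.box4
    refine ⟨C, hC, fun T hT F hF => le_trans ?_ (h T hT)⟩
    refine le_trans (le_of_eq ?_) (sum_le_sum_of_subset_of_nonneg (s := F) ?_ fun _ _ _ => by positivity)
    · refine sum_congr rfl fun t _ => ?_
      rw [curve_eq]
      rfl
    · intro t ht
      obtain ⟨h1, h2, h3, h4, h5, h6⟩ := hF t ht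
      exact mem_filter.2 ⟨hin T t h1 h2, h3, h4, h5, h6⟩
  · obtain ⟨C, hC, h⟩ := Pool.Agent.W307.RT.box6
    refine ⟨C, hC, fun T hT F hF => le_trans ?_ (h T hT)⟩
    refine le_trans (le_of_eq ?_) (sum_le_sum_of_subset_of_nonneg (s := F) ?_ fun _ _ _ => by positivity)
    · refine sum_congr rfl fun t _ => ?_
      rw [curve_eq]
      rfl
    · intro t ht
      obtain ⟨h1, h2, h3, h4, h5, h6⟩ := hF t ht
      exact mem_filter.2 ⟨hin T t h1 h2, h3, h4, h5, h6⟩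
  · obtain ⟨C, hC, h⟩ := Pool.Agent.Y723.Z8.Fin8.avg8 Pool.Agent.Y723.Z8.Chr.chr
      (Pool.Agent.Y515.Z8.cnt_of Pool.Agent.Y723.Z8.Chr.chr)
    refine ⟨C, hC, fun T hT F hF => le_trans ?_ (h T hT)⟩
    refine le_trans (le_of_eq ?_) (sum_le_sum_of_subset_of_nonneg (s := F) ?_ fun _ _ _ => by positivity)
    · refine sum_congr rfl fun t _ => ?_
      rw [curve_eq]
      rfl
    · intro t ht
      obtain ⟨h1, h2, h3, h4, h5, h6⟩ := hF t ht
      exact mem_filter.2 ⟨hin T t h1 h2, h3, h4, h5, h6⟩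

lemma par (i : Fin 3) : ∃ k : ℕ, Pool.Agent.W307.RT.PAR (tor i) k (fun a b => M i (a, b))
    (fun a b => N i (a, b)) := by
  have hi : i = 0 ∨ i = 1 ∨ i = 2 := by
    revert i
    decide
  rcases hi with rfl | rfl | rfl
  · exact ⟨_, Pool.Agent.W605.RT.par4_of Pool.Agent.W261.RT.iso⟩
  · exact ⟨_, Pool.Agent.W135.RT.par6_of Pool.Agent.W261.RT.iso⟩
  · exact ⟨_, Pool.Agent.Y87.Z8.par⟩

/-- **Theorem.** (1) Every elliptic curve over `ℚ` (in the minimal form `y² = x³ + A x + B`) with a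
subgroup `Z/2 x Z/4`, `Z/2 x Z/6` or `Z/2 x Z/8` (`i = 0, 1, 2`) has the same rank as
`y² = x (x + M i (a, b)) (x + N i (a, b))` for some coprime `a`, `b`, `M i (a, b)` and `N i (a, b)`
different and not zero. (2) Let `v n ≥ 1` be a sequence of real numbers. For almost all the vectors `α`
of the plane, all `C` such that `n ^ C ≤ v n` for large `n`, all `ε > 0` and all large `n`, all these
curves with parameters `(a, b)` near `v n * α` satisfy `2 ^ rank ≤ n ^ (2 C + 1 + ε)`. -/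
theorem result :
    (∀ (i : Fin 3) (A B : ℤ), 4 * A ^ 3 + 27 * B ^ 2 ≠ 0 →
      (∀ p : ℕ, p.Prime → ¬ ((p : ℤ) ^ 4 ∣ A ∧ (p : ℤ) ^ 6 ∣ B)) →
      (∃ f : ZMod 2 × ZMod (tor i) →+ (E A B).toAffine.Point, Function.Injective f) →
      ∃ t : ℤ × ℤ, Param i t ∧ rank (E A B) = rank (curve (M i t) (N i t))) ∧
    ∀ v : ℕ → ℝ, (∀ n, 1 ≤ v n) → ∀ᵐ α : ℝ × ℝ, ∀ (C : ℕ) (ε : ℝ), 0 < ε →
      (∀ᶠ n : ℕ in atTop, (n : ℝ) ^ C ≤ v n) → ∀ᶠ n : ℕ in atTop, ∀ (i : Fin 3) (t : ℤ × ℤ),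
        Near v α C n t → Param i t →
          (2 : ℝ) ^ rank (curve (M i t) (N i t)) ≤ (n : ℝ) ^ (2 * (C : ℝ) + 1 + ε) := by
  classical
  refine ⟨fun i A B h0 hmin hf => ?_, fun v hv => ?_⟩
  · obtain ⟨k, C, F, hF⟩ := par i
    set H : ℕ := (4 * |A| ^ 3 + 27 * B ^ 2 + |A| + |B|).toNat with hH
    have hA : 0 ≤ |A| := abs_nonneg A
    have hB : 0 ≤ |B| := abs_nonneg B
    have hA3 : 0 ≤ |A| ^ 3 := by positivity
    have hB2 : 0 ≤ B ^ 2 := by positivity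
    have hHz : (H : ℤ) = 4 * |A| ^ 3 + 27 * B ^ 2 + |A| + |B| :=
      Int.toNat_of_nonneg (by positivity)
    have hmem : (A, B) ∈ Pool.Agent.W307.RT.Cv (tor i) H := by
      unfold Pool.Agent.W307.RT.Cv
      refine mem_filter.2 ⟨mem_product.2 ⟨mem_Icc.2 ?_, mem_Icc.2 ?_⟩, h0, ?_, ?_, hmin, ?_⟩
      · have := abs_le.1 (show |A| ≤ (H : ℤ) by linarith)
        exact this
      · have := abs_le.1 (show |B| ≤ (H : ℤ) by linarith)
        exact this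
      · show 4 * |A| ^ 3 ≤ (H : ℤ)
        linarith
      · show 27 * B ^ 2 ≤ (H : ℤ)
        linarith
      · exact Pool.Agent.W307.RT.tors_iff.2 hf
    obtain ⟨h1, h2, h3, h4, -, -, h5⟩ := (hF H).2 _ hmem
    refine ⟨F (A, B), ⟨h1, h2, h3, h4⟩, ?_⟩
    unfold rank
    rw [← curve_eq]
    exact h5
  · have key : ∀ i : Fin 3, ∀ᵐ α : ℝ × ℝ, ∀ (C : ℕ) (ε : ℝ), 0 < ε →
        (∀ᶠ n : ℕ in atTop, (n : ℝ) ^ C ≤ v n) → ∀ᶠ n : ℕ in atTop, ∀ t : ℤ × ℤ,
          |(t.1 : ℝ) - α.1 * v n| ≤ (n : ℝ) ^ C → |(t.2 : ℝ) - α.2 * v n| ≤ (n : ℝ) ^ C →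
          Param i t →
          (2 : ℝ) ^ rank (curve (M i t) (N i t)) ≤ (n : ℝ) ^ (2 * (C : ℝ) + 1 + ε) := by
      intro i
      refine Pool.Agent.V1166.WI.averageP (P := Param i)
        (w := fun t => (2 : ℝ) ^ rank (curve (M i t) (N i t))) ?_ hv
      obtain ⟨K, -, hK⟩ := box i
      exact ⟨K, fun F T hT hF => hK T hT F hF⟩
    filter_upwards [ae_all_iff.2 key] with α hα C ε hε hC
    filter_upwards [eventually_all.2 fun i => hα i C ε hε hC] with n hn i t ht hp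
    exact hn i t ht.1 ht.2 hp

end Pool.Agent.Results.MP_9e6228_nt.WindowsOfParameters
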